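import Pool.Agent.Lib_helper49.E56.Grp

set_option autoImplicit false
set_option linter.unusedSectionVars false

/-! The regular action of `V = C_p^{n}` on `G`, and the subgroup `H`. -/

namespace Pool.H49.E56

open scoped commutatorElement

noncomputable section

variable (p : ℕ) (k : Type) [Field k] [CharP k 2] (I J : Type) [Fintype J] [Inhabited I]
  [DecidableEq I] [DecidableEq J]

/-- the elementary abelian group `V` -/
abbrev VV : Type := Option I → rootsOfUnity p k

variable {p k I J}

def et (v : VV p k I) (i : I) : k := ((v (some i) : kˣ) : k)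
def ch (v : VV p k I) : k := ((v none : kˣ) : k)

lemma et_one : et (1 : VV p k I) = 1 := by ext i; simp [et]
lemma ch_one : ch (1 : VV p k I) = 1 := by simp [ch]
lemma et_mul (v w : VV p k I) : et (v * w) = et v * et w := by ext i; simp [et]
lemma ch_mul (v w : VV p k I) : ch (v * w) = ch v * ch w := by simp [ch]
lemma et_ne (v : VV p k I) (i : I) : et v i ≠ 0 := Units.ne_zero _
lemma ch_ne (v : VV p k I) : ch v ≠ 0 := Units.ne_zero _

/-- action on `F` -/
def DF (v : VV p k I) : FF k I J →* FF k I J where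
  toFun f := ⟨um (DD (et v) (ch v)) f.1, FF_DD f.2 _ _⟩
  map_one' := by ext; simp
  map_mul' f g := by ext; simp

lemma fv_DF (v : VV p k I) (f : FF k I J) : fv (DF v f) = DD (et v) (ch v) (fv f) := rfl

instance : SMul (VV p k I) (GG k I J) where
  smul v g := ⟨et v default • DD (et v) (ch v) g.m, DF v g.f, fun i => (ch v / et v i) • g.b i⟩

lemma smul_m (v : VV p k I) (g : GG k I J) :
    (v • g).m = et v default • DD (et v) (ch v) g.m := rfl
lemma smul_f (v : VV p k I) (g : GG k I J) : (v • g).f = DF v g.f := rfl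
lemma smul_b (v : VV p k I) (g : GG k I J) :
    (v • g).b = fun i => (ch v / et v i) • g.b i := rfl

instance : MulDistribMulAction (VV p k I) (GG k I J) where
  one_smul g := by
    ext1
    · rw [smul_m, et_one, ch_one, DD_one, Pi.one_apply, one_smul]
    · rw [smul_f]; apply fv_ext; rw [fv_DF, et_one, ch_one, DD_one]
    · rw [smul_b, et_one, ch_one]; ext i j; simp
  mul_smul v w g := by
    ext1
    · rw [smul_m, smul_m, smul_m, map_smul, DD_comp, et_mul, ch_mul, smul_smul, Pi.mul_apply]
    · rw [smul_f, smul_f, smul_f]; apply fv_ext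
      rw [fv_DF, fv_DF, fv_DF, DD_comp, et_mul, ch_mul]
    · rw [smul_b, smul_b, smul_b, et_mul, ch_mul]
      ext i j
      simp only [Pi.smul_apply, Pi.mul_apply, smul_eq_mul]
      have h1 := et_ne v i
      have h2 := et_ne w i
      field_simp
  smul_mul v g h := by
    ext1
    · rw [smul_m, mul_m, mul_m, smul_m, smul_f, smul_b, smul_m, fv_DF, map_add, map_mul,
        DD_TT _ _ (et_ne v), smul_add, map_smul, mul_smul_comm]
    · rw [smul_f, mul_f, mul_f, smul_f, smul_f, smul_b, map_mul]
      congr 1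
      apply fv_ext
      rw [fv_DF, fv_TF, fv_TF, fv_DF, DD_TT _ _ (et_ne v)]
    · rw [smul_b, mul_b, mul_b, smul_b, smul_b]
      ext i j
      simp only [Pi.smul_apply, Pi.add_apply, smul_eq_mul]
      ring
  smul_one v := by
    ext1
    · rw [smul_m, one_m, map_zero, smul_zero]
    · rw [smul_f, one_f, map_one]
    · rw [smul_b, one_b]; ext i j; simp

/-! ### regularity -/

/-- the unit in `rootsOfUnity p k` given by a primitive root -/
def zu {ζ : k} (hζ : IsPrimitiveRoot ζ p) (hp : p.Prime) : rootsOfUnity p k :=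
  ⟨Units.mk0 ζ (hζ.ne_zero hp.ne_zero), by
    rw [mem_rootsOfUnity]; ext; simp [hζ.pow_eq_one]⟩

lemma zu_val {ζ : k} (hζ : IsPrimitiveRoot ζ p) (hp : p.Prime) :
    ((zu hζ hp : kˣ) : k) = ζ := rfl

lemma regular {ζ : k} (hζ : IsPrimitiveRoot ζ p) (hp : p.Prime) (hp2 : p ≠ 2)
    (g : GG k I J) (hg : ∀ v : VV p k I, v • g = g) : g = 1 := by
  have hz1 : ζ ≠ 1 := hζ.ne_one hp.one_lt
  have hz2 : ζ ^ 2 ≠ 1 := by
    have hζ2 : IsPrimitiveRoot (ζ ^ 2) p :=
      hζ.pow_of_coprime 2 ((Nat.coprime_primes Nat.prime_two hp).2 (Ne.symm hp2))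
    exact hζ2.ne_one hp.one_lt
  have hz0 : ζ ≠ 0 := hζ.ne_zero hp.ne_zero
  have het : ∀ i : I, et (Function.update (1 : VV p k I) (some i) (zu hζ hp)) =
      Function.update (1 : I → k) i ζ := by
    intro i
    ext i'
    unfold et
    by_cases h : i' = i
    · subst h; simp [zu_val]
    · rw [Function.update_of_ne (by simpa using h), Function.update_of_ne h]; simp
  have hch : ∀ i : I, ch (Function.update (1 : VV p k I) (some i) (zu hζ hp)) = 1 := by
    intro i
    unfold ch
    rw [Function.update_of_ne (by simp)]; simp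
  ext1
  · rw [one_m]
    have h := congrArg GG.m (hg (Function.update (1 : VV p k I) (some default) (zu hζ hp)))
    rw [smul_m, het, hch, Function.update_self] at h
    exact fixed_module hz1 hz2 default g.m h
  · rw [one_f]
    have h := congrArg GG.f (hg (fun _ => zu hζ hp))
    rw [smul_f] at h
    have h2 : DD (fun _ => ζ) ζ (fv g.f) = fv g.f := by
      have := congrArg fv h
      rw [fv_DF] at this
      exact this
    have h3 := FF_fixed hζ hp hp2 g.f.2 h2
    exact Subtype.ext h3
  · rw [one_b]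
    ext i j
    have h := congrArg GG.b (hg (Function.update (1 : VV p k I) (some i) (zu hζ hp)))
    rw [smul_b, het, hch] at h
    have h2 := congrFun (congrFun h i) j
    simp only [Function.update_self, Pi.smul_apply, smul_eq_mul, one_div] at h2
    rw [Pi.zero_apply, Pi.zero_apply]
    have h3 : (ζ⁻¹ - 1) * g.b i j = 0 := by rw [sub_mul, h2, one_mul, sub_self]
    rcases mul_eq_zero.1 h3 with h4 | h4
    · exfalso
      apply hz1
      have h5 : ζ⁻¹ = 1 := sub_eq_zero.1 h4
      rw [← inv_inv ζ, h5, inv_one]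
    · exact h4

/-! ### the subgroups `[G, v]` -/

/-- `[G,v]` -/
abbrev CV (v : VV p k I) : Subgroup (GG k I J) :=
  Subgroup.closure {x : GG k I J | ∃ g : GG k I J, x = g⁻¹ * (v • g)}

lemma CV_normal (v : VV p k I) : (CV (J := J) v).Normal := by
  constructor
  intro n hn g
  induction hn using Subgroup.closure_induction with
  | mem x hx =>
    obtain ⟨y, rfl⟩ := hx
    have e : g * (y⁻¹ * (v • y)) * g⁻¹ =
        ((y * g⁻¹)⁻¹ * (v • (y * g⁻¹))) * (((g⁻¹)⁻¹ * (v • g⁻¹)))⁻¹ := by
      rw [smul_mul']; group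
    rw [e]
    exact Subgroup.mul_mem _ (Subgroup.subset_closure ⟨_, rfl⟩)
      (Subgroup.inv_mem _ (Subgroup.subset_closure ⟨_, rfl⟩))
  | one => rw [mul_one, mul_inv_cancel]; exact Subgroup.one_mem _
  | mul x y _ _ hx hy =>
    have : g * (x * y) * g⁻¹ = (g * x * g⁻¹) * (g * y * g⁻¹) := by group
    rw [this]; exact Subgroup.mul_mem _ hx hy
  | inv x _ hx =>
    have : g * x⁻¹ * g⁻¹ = (g * x * g⁻¹)⁻¹ := by group
    rw [this]; exact Subgroup.inv_mem _ hx

lemma comm_mem_left {S : Subgroup (GG k I J)} (hS : S.Normal) {x : GG k I J} (hx : x ∈ S)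
    (y : GG k I J) : ⁅x, y⁆ ∈ S := by
  rw [commutatorElement_def]
  have e : x * y * x⁻¹ * y⁻¹ = x * (y * x⁻¹ * y⁻¹) := by group
  rw [e]
  exact S.mul_mem hx (hS.conj_mem _ (S.inv_mem hx) y)

lemma comm_mem_right {S : Subgroup (GG k I J)} (hS : S.Normal) {y : GG k I J} (hy : y ∈ S)
    (x : GG k I J) : ⁅x, y⁆ ∈ S := by
  rw [commutatorElement_def]
  exact S.mul_mem (hS.conj_mem _ hy x) (S.inv_mem hy)

/-- the element `1 + c t_i` of `F` -/
def ft (i : I) (c : k) : FF k I J :=
  ⟨uz (c • tt k i) (by rw [smul_pow, tt_sq, smul_zero]), FF_of_gen i c 0 (by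
    rw [uz_val, LL_zero, add_zero])⟩

lemma fv_ft (i : I) (c : k) : fv (ft (J := J) i c) = 1 + c • tt k i := rfl

/-- the element `1 + β` of `F` -/
def fl (b : J → k) : FF k I J :=
  ⟨uz (LL b) (LL_sq b), FF_of_gen default 0 b (by
    rw [uz_val, zero_smul, add_zero])⟩

lemma fv_fl (b : J → k) : fv (fl (I := I) b) = 1 + LL b := rfl

lemma TT_single (i : I) (b : J → k) (c : k) :
    TT (Function.update 0 i b) (c • tt k i : RR k I J) = c • tt k i + c • LL b := by
  rw [map_smul, TT_tt, Function.update_self, smul_add]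

/-- commutator `κ = [1 + c t_i, T_{β e_i}] = 1 + cβ + c² t_i β` -/
lemma kappa (i : I) (c : k) (b : J → k) :
    fv (ft i c * TF (Function.update 0 i b) (ft i c) : FF k I J) =
      1 + c • LL b + (c ^ 2) • (tt k i * LL b) := by
  rw [fv_mul, fv_TF, fv_ft, map_add, map_one, TT_single]
  set A := c • (tt k i : RR k I J) with hA
  have hA2 : A ^ 2 = 0 := by rw [hA, smul_pow, tt_sq, smul_zero]
  have e : (c ^ 2) • (tt k i * LL b : RR k I J) = A * (c • LL b) := by
    rw [hA, smul_mul_smul_comm, sq]
  rw [e]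
  have h2 : A + A = 0 := CharTwo.add_self_eq_zero _
  linear_combination hA2 + h2

/-- a subgroup containing all the `κ`'s contains `1 + s_j`-type elements -/
lemma fl_mem_of_kappa {S : Subgroup (GG k I J)} {ζ : k} (hz0 : ζ ≠ 0) (hz1 : ζ ≠ 1) (i : I)
    (h : ∀ (c : k) (b : J → k), gf (ft i c * TF (Function.update 0 i b) (ft i c)) ∈ S)
    (b : J → k) : gf (fl b) ∈ S := by
  -- `1 + (1 + ζ) t_i β` first
  have h1 : ∀ b : J → k, gf ((ft i 1 * TF (Function.update 0 i b) (ft i 1)) *
      (ft i ζ * TF (Function.update 0 i (ζ⁻¹ • b)) (ft i ζ))) ∈ S := by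
    intro b
    rw [← gf_mul]
    exact S.mul_mem (h 1 b) (h ζ _)
  have h2 : ∀ b : J → k, fv ((ft i 1 * TF (Function.update 0 i b) (ft i 1)) *
      (ft i ζ * TF (Function.update 0 i (ζ⁻¹ • b)) (ft i ζ)) : FF k I J) =
      1 + (1 + ζ) • (tt k i * LL b) := by
    intro b
    rw [fv_mul, kappa, kappa, LL_smul, smul_smul, mul_inv_cancel₀ hz0, mul_smul_comm, smul_smul]
    have e1 : ζ ^ 2 * ζ⁻¹ = ζ := by field_simp
    rw [e1, one_smul, one_pow, one_smul, add_smul, one_smul]
    have hb : (LL b : RR k I J) ^ 2 = 0 := LL_sq b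
    have ht : (tt k i : RR k I J) ^ 2 = 0 := tt_sq k i
    have h2 : (LL b : RR k I J) + LL b = 0 := CharTwo.add_self_eq_zero _
    have e2 : ζ • (tt k i * LL b : RR k I J) = algebraMap k _ ζ * (tt k i * LL b) :=
      Algebra.smul_def _ _
    rw [e2]
    linear_combination h2 + (1 + tt k i + algebraMap k _ ζ * tt k i +
      algebraMap k _ ζ * (tt k i) ^ 2) * hb
  -- hence `κ_{1,b} * (...) = 1 + b`
  have hne : (1 + ζ) ≠ 0 := by
    intro h0
    apply hz1
    have : (1 : k) = -ζ := eq_neg_of_add_eq_zero_left h0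
    rw [CharTwo.neg_eq] at this
    exact this.symm
  have h3 : gf ((ft i 1 * TF (Function.update 0 i b) (ft i 1)) *
      ((ft i 1 * TF (Function.update 0 i ((1 + ζ)⁻¹ • b)) (ft i 1)) *
      (ft i ζ * TF (Function.update 0 i (ζ⁻¹ • ((1 + ζ)⁻¹ • b))) (ft i ζ)))) ∈ S := by
    rw [← gf_mul]
    exact S.mul_mem (h 1 b) (h1 _)
  have h4 : ((ft i 1 * TF (Function.update 0 i b) (ft i 1)) *
      ((ft i 1 * TF (Function.update 0 i ((1 + ζ)⁻¹ • b)) (ft i 1)) *
      (ft i ζ * TF (Function.update 0 i (ζ⁻¹ • ((1 + ζ)⁻¹ • b))) (ft i ζ)))) =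
      (fl b : FF k I J) := by
    apply fv_ext
    rw [fv_mul, h2, kappa, fv_fl, LL_smul, mul_smul_comm, smul_smul, mul_inv_cancel₀ hne,
      one_smul, one_smul, one_pow, one_smul]
    have hb : (LL b : RR k I J) ^ 2 = 0 := LL_sq b
    have h2 : (tt k i * LL b : RR k I J) + tt k i * LL b = 0 := CharTwo.add_self_eq_zero _
    linear_combination h2 + (tt k i + (tt k i) ^ 2) * hb
  rwa [h4] at h3

lemma kappa_mem_CV {v : VV p k I} (i : I) (hv : et v i ≠ 1 ∨ ch v ≠ et v i) (c : k)
    (b : J → k) : gf (ft i c * TF (Function.update 0 i b) (ft i c)) ∈ CV (J := J) v := by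
  rw [← comm_gf_gb]
  rcases hv with hv | hv
  · apply comm_mem_left (CV_normal v)
    apply Subgroup.subset_closure
    have hne : (1 + et v i) ≠ 0 := by
      intro h0
      apply hv
      have : (1 : k) = -(et v i) := eq_neg_of_add_eq_zero_left h0
      rw [CharTwo.neg_eq] at this
      exact this.symm
    refine ⟨gf (ft i (c / (1 + et v i))), ?_⟩
    rw [gf_inv]
    have e1 : v • gf (ft (J := J) i (c / (1 + et v i))) =
        gf (ft i (et v i * (c / (1 + et v i)))) := by
      ext1
      · rw [smul_m]; simp only [gf]; rw [map_zero, smul_zero]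
      · rw [smul_f]; simp only [gf]; apply fv_ext
        rw [fv_DF, fv_ft, fv_ft, map_add, map_one, map_smul, DD_tt, smul_smul, mul_comm]
      · rw [smul_b]; simp only [gf]; ext i j; simp
    rw [e1, gf_mul]
    congr 1
    apply fv_ext
    rw [fv_mul, fv_ft, fv_ft, fv_ft]
    set a := c / (1 + et v i) with ha
    have hc : c = a + et v i * a := by rw [ha]; field_simp
    have ht : (a • (tt k i : RR k I J)) * ((et v i * a) • tt k i) = 0 := by
      rw [smul_mul_smul_comm, ← sq, tt_sq, smul_zero]
    rw [hc, add_smul]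
    linear_combination -ht
  · apply comm_mem_right (CV_normal v)
    apply Subgroup.subset_closure
    have het0 := et_ne v i
    have hne : (ch v / et v i + 1) ≠ 0 := by
      intro h0
      apply hv
      have h1 : ch v / et v i = -1 := eq_neg_of_add_eq_zero_left h0
      rw [CharTwo.neg_eq] at h1
      rwa [div_eq_one_iff_eq het0] at h1
    refine ⟨gb (Function.update 0 i ((ch v / et v i + 1)⁻¹ • b)), ?_⟩
    rw [gb_inv]
    have e1 : v • gb (J := J) (Function.update 0 i ((ch v / et v i + 1)⁻¹ • b)) =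
        gb (Function.update 0 i ((ch v / et v i) • ((ch v / et v i + 1)⁻¹ • b))) := by
      ext1
      · rw [smul_m]; simp only [gb]; rw [map_zero, smul_zero]
      · rw [smul_f]; simp only [gb]; rw [map_one]
      · rw [smul_b]; simp only [gb]
        ext i' j
        by_cases h : i' = i
        · subst h; simp
        · simp [Function.update_of_ne h]
    rw [e1, gb_mul]
    congr 1
    ext i' j
    by_cases h : i' = i
    · subst h
      simp only [Function.update_self, Pi.add_apply, Pi.smul_apply, smul_eq_mul]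
      have := mul_inv_cancel₀ hne
      linear_combination (-b j) * this
    · simp [Function.update_of_ne h]

/-- `H` -/
abbrev HH : Subgroup (GG k I J) := ⨅ (v : VV p k I) (_ : v ≠ 1), CV v

lemma fl_mem_HH {ζ : k} (hz0 : ζ ≠ 0) (hz1 : ζ ≠ 1) (b : J → k) :
    gf (fl b) ∈ HH (p := p) (k := k) (I := I) (J := J) := by
  rw [Subgroup.mem_iInf]
  intro v
  rw [Subgroup.mem_iInf]
  intro hv
  have : ∃ i, et v i ≠ 1 ∨ ch v ≠ et v i := by
    by_contra hcon
    push Not at hcon
    apply hv
    ext o
    rcases o with _ | i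
    · have h1 := (hcon default).2
      rw [(hcon default).1] at h1
      exact h1
    · exact (hcon i).1
  obtain ⟨i, hi⟩ := this
  exact fl_mem_of_kappa hz0 hz1 i (fun c b => kappa_mem_CV i hi c b) b

lemma HH_normal : (HH (p := p) (k := k) (I := I) (J := J)).Normal := by
  constructor
  intro n hn g
  rw [Subgroup.mem_iInf] at hn ⊢
  intro v
  have := hn v
  rw [Subgroup.mem_iInf] at this ⊢
  intro hv
  exact (CV_normal v).conj_mem _ (this hv) g

/-! ### the lower central series of `H` -/

lemma comm_fl_gm (j : J) (x : RR k I J) :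
    ⁅gf (fl (I := I) (Pi.single j (1 : k))), gm x⁆ = gm (ss k j * x) := by
  rw [comm_gf_gm, fv_fl, LL_single, one_smul]
  congr 1
  have : (1 : RR k I J) + 1 = 0 := CharTwo.add_self_eq_zero _
  linear_combination x * this

lemma lcs_mem {ζ : k} (hz0 : ζ ≠ 0) (hz1 : ζ ≠ 1) :
    ∀ (r : ℕ) (S : Finset J), S.card = r + 1 →
      gm (∏ j ∈ S, ss k j) ∈
        (HH (p := p) (k := k) (I := I) (J := J)).lowerCentralSeries r := by
  intro r
  induction r with
  | zero =>
    intro S hS
    obtain ⟨j, rfl⟩ := Finset.card_eq_one.1 hS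
    rw [Finset.prod_singleton]
    have h := comm_fl_gm (I := I) j (1 : RR k I J)
    rw [mul_one] at h
    rw [← h]
    exact comm_mem_left HH_normal (fl_mem_HH hz0 hz1 _) _
  | succ r ih =>
    intro S hS
    obtain ⟨j, hj⟩ : S.Nonempty := by
      rw [← Finset.card_pos, hS]; omega
    have h1 := ih (S.erase j) (by rw [Finset.card_erase_of_mem hj, hS]; rfl)
    rw [← Finset.mul_prod_erase S _ hj, ← comm_fl_gm, ← commutatorElement_inv]
    apply Subgroup.inv_mem
    exact Subgroup.commutator_mem_commutator h1 (fl_mem_HH hz0 hz1 _)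

lemma ss_prod_ne (S : Finset J) : (∏ j ∈ S, ss k j : RR k I J) ≠ 0 := by
  have := prod_gx_ne_zero (k := k) (S.map ⟨Sum.inr, Sum.inr_injective⟩ : Finset (I ⊕ J))
  rw [Finset.prod_map] at this
  exact this

lemma class_gt [Finite k] [Finite I] {ζ : k} (hz0 : ζ ≠ 0) (hz1 : ζ ≠ 1) {N : ℕ}
    (hN : Fintype.card J = N + 1) :
    Group.IsNilpotent (HH (p := p) (k := k) (I := I) (J := J)) ∧
      N < Group.nilpotencyClass (HH (p := p) (k := k) (I := I) (J := J)) := by
  have hpG : IsPGroup 2 (GG k I J) := isPGroup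
  have : Fact (Nat.Prime 2) := ⟨Nat.prime_two⟩
  have hnil : Group.IsNilpotent (HH (p := p) (k := k) (I := I) (J := J)) :=
    (hpG.to_subgroup _).isNilpotent
  refine ⟨hnil, ?_⟩
  by_contra hcon
  push Not at hcon
  have h1 := Subgroup.lowerCentralSeries_eq_bot_of_nilpotencyClass_le hcon
  have h2 := lcs_mem (p := p) (I := I) hz0 hz1 N (Finset.univ : Finset J) (by
    rw [Finset.card_univ, hN])
  rw [h1, Subgroup.mem_bot] at h2
  exact gm_ne_one (ss_prod_ne _) h2

/-! ### derived length exactly three -/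

lemma ds2_ne [Nonempty J] {ζ : k} (hz0 : ζ ≠ 0) (hz1 : ζ ≠ 1) :
    derivedSeries (GG k I J) 2 ≠ ⊥ := by
  obtain ⟨j⟩ := ‹Nonempty J›
  intro hbot
  have hk : ∀ (c : k) (b : J → k), gf (ft default c * TF (Function.update 0 default b)
      (ft default c)) ∈ derivedSeries (GG k I J) 1 := by
    intro c b
    rw [← comm_gf_gb, derivedSeries_succ, derivedSeries_zero]
    exact Subgroup.commutator_mem_commutator (Subgroup.mem_top _) (Subgroup.mem_top _)
  have h1 : gf (fl (I := I) (Pi.single j (1 : k))) ∈ derivedSeries (GG k I J) 1 :=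
    fl_mem_of_kappa hz0 hz1 default hk _
  have h2 : gm (tt k default) ∈ derivedSeries (GG k I J) 1 := by
    have e := comm_gf_gm (ft (J := J) (default : I) (1 : k)) 1
    have e2 : (fv (ft (J := J) (default : I) (1 : k)) + 1) * 1 = tt k default := by
      rw [fv_ft, one_smul]
      have : (1 : RR k I J) + 1 = 0 := CharTwo.add_self_eq_zero _
      linear_combination this
    rw [e2] at e
    rw [← e, derivedSeries_succ, derivedSeries_zero]
    exact Subgroup.commutator_mem_commutator (Subgroup.mem_top _) (Subgroup.mem_top _)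
  have h3 : ⁅gf (fl (I := I) (Pi.single j (1 : k))), gm (tt k (default : I))⁆ ∈ derivedSeries (GG k I J) 2 := by
    rw [derivedSeries_succ]
    exact Subgroup.commutator_mem_commutator h1 h2
  rw [comm_fl_gm, hbot, Subgroup.mem_bot] at h3
  refine gm_ne_one ?_ h3
  have := prod_gx_ne_zero (k := k) ({Sum.inr j, Sum.inl default} : Finset (I ⊕ J))
  rw [Finset.prod_insert (by simp), Finset.prod_singleton] at this
  exact this

/-! ### faithfulness -/

instance [Nonempty J] : FaithfulSMul (VV p k I) (GG k I J) where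
  eq_of_smul_eq_smul {v w} h := by
    obtain ⟨j⟩ := ‹Nonempty J›
    have h1 : ∀ i, et v i = et w i := by
      intro i
      have e := congrArg (fun g => fv g.f) (h (gf (ft i 1)))
      simp only [smul_f, fv_DF] at e
      simp only [gf] at e
      rw [fv_ft, map_add, map_add, map_one, map_one, one_smul, DD_tt, DD_tt] at e
      have e2 : (et v i - et w i) • (tt k i : RR k I J) = 0 := by
        rw [sub_smul, sub_eq_zero]; exact add_left_cancel e
      rcases smul_eq_zero.1 e2 with h | h
      · exact sub_eq_zero.1 h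
      · exfalso
        have := prod_gx_ne_zero (k := k) ({Sum.inl i} : Finset (I ⊕ J))
        rw [Finset.prod_singleton] at this
        exact this h
    have h2 : ch v = ch w := by
      have e := congrArg GG.b (h (gb (fun _ _ => 1)))
      rw [smul_b, smul_b] at e
      simp only [gb] at e
      have e2 := congrFun (congrFun e default) j
      simp only [Pi.smul_apply, smul_eq_mul, mul_one] at e2
      rw [h1 default] at e2
      have := et_ne w default
      field_simp at e2
      exact e2
    ext o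
    rcases o with _ | i
    · exact h2
    · exact h1 i

end

end Pool.H49.E56
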