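import Pool.Agent.Lib_helper49.E56.Ring

set_option autoImplicit false
set_option linter.unusedSectionVars false

/-! Automorphisms `T_b` and `δ` of the ring `k[t_i, s_j]/(t_i^2, s_j^2)` (characteristic two). -/

namespace Pool.H49.E56

open MvPolynomial

noncomputable section

variable (k : Type) [Field k] [CharP k 2] (I J : Type) [Fintype J]

abbrev RR : Type := Rg k (I ⊕ J)

variable {I J}

def tt (i : I) : RR k I J := gx k (I ⊕ J) (Sum.inl i)
def ss (j : J) : RR k I J := gx k (I ⊕ J) (Sum.inr j)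

lemma tt_sq (i : I) : tt k (J := J) i ^ 2 = 0 := gx_sq _
lemma ss_sq (j : J) : ss k (I := I) j ^ 2 = 0 := gx_sq _

variable {k}

/-- the linear form `∑ b_j s_j` -/
def LL (b : J → k) : RR k I J := ∑ j, b j • ss k j

lemma LL_add (b c : J → k) : LL (I := I) (b + c) = LL b + LL c := by
  simp [LL, add_smul, Finset.sum_add_distrib]

lemma LL_smul (a : k) (b : J → k) : LL (I := I) (a • b) = a • LL b := by
  simp [LL, Finset.smul_sum, mul_smul]

lemma LL_zero : LL (I := I) (0 : J → k) = 0 := by simp [LL]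

lemma LL_sq (b : J → k) : LL (I := I) b ^ 2 = 0 := by
  unfold LL
  rw [CharTwo.sum_sq]
  apply Finset.sum_eq_zero
  intro j _
  rw [smul_pow, ss_sq, smul_zero]

lemma LL_single [DecidableEq J] (j : J) (a : k) : LL (I := I) (Pi.single j a) = a • ss k j := by
  unfold LL
  rw [Finset.sum_eq_single j]
  · simp
  · intro i _ hij; simp [Pi.single_eq_of_ne hij]
  · simp

/-- `T_b : t_i ↦ t_i + ∑_j b_{ij} s_j`, `s_j ↦ s_j` -/
def TT (b : I → J → k) : RR k I J →ₐ[k] RR k I J :=
  rlift (Sum.elim (fun i => tt k i + LL (b i)) (fun j => ss k j)) (by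
    rintro (i | j)
    · simp only [Sum.elim_inl]
      rw [CharTwo.add_sq, tt_sq, LL_sq, add_zero]
    · exact ss_sq k j)

lemma TT_tt (b : I → J → k) (i : I) : TT b (tt k i) = tt k i + LL (b i) :=
  rlift_gx _ _ (Sum.inl i)

lemma TT_ss (b : I → J → k) (j : J) : TT b (ss k j) = ss k j :=
  rlift_gx _ _ (Sum.inr j)

lemma TT_LL (b : I → J → k) (c : J → k) : TT b (LL c) = LL c := by
  unfold LL
  rw [map_sum]
  exact Finset.sum_congr rfl fun j _ => by rw [map_smul, TT_ss]

lemma TT_comp (b c : I → J → k) (x : RR k I J) : TT b (TT c x) = TT (b + c) x := by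
  have : (TT b).comp (TT c) = TT (b + c) := by
    apply rhom_ext
    rintro (i | j)
    · change TT b (TT c (tt k i)) = TT (b + c) (tt k i)
      rw [TT_tt, map_add, TT_tt, TT_LL, TT_tt, Pi.add_apply, LL_add, add_assoc]
    · change TT b (TT c (ss k j)) = TT (b + c) (ss k j)
      rw [TT_ss, TT_ss, TT_ss]
  exact DFunLike.congr_fun this x

lemma TT_zero (x : RR k I J) : TT (0 : I → J → k) x = x := by
  have : TT (0 : I → J → k) = AlgHom.id k (RR k I J) := by
    apply rhom_ext
    rintro (i | j)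
    · change TT 0 (tt k i) = tt k i
      rw [TT_tt, Pi.zero_apply, LL_zero, add_zero]
    · exact TT_ss 0 j
  rw [this]; rfl

/-- the diagonal automorphism `t_i ↦ a_i t_i`, `s_j ↦ c s_j` -/
def DD (a : I → k) (c : k) : RR k I J →ₐ[k] RR k I J :=
  rlift (Sum.elim (fun i => a i • tt k i) (fun j => c • ss k j)) (by
    rintro (i | j)
    · simp only [Sum.elim_inl]
      rw [smul_pow, tt_sq, smul_zero]
    · simp only [Sum.elim_inr]
      rw [smul_pow, ss_sq, smul_zero])

lemma DD_tt (a : I → k) (c : k) (i : I) : DD a c (tt k (J := J) i) = a i • tt k i :=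
  rlift_gx _ _ (Sum.inl i)

lemma DD_ss (a : I → k) (c : k) (j : J) : DD a c (ss k j) = c • ss k j :=
  rlift_gx _ _ (Sum.inr j)

lemma DD_LL (a : I → k) (c : k) (b : J → k) : DD a c (LL b) = LL (c • b) := by
  rw [LL_smul]
  unfold LL
  rw [map_sum, Finset.smul_sum]
  exact Finset.sum_congr rfl fun j _ => by rw [map_smul, DD_ss, smul_comm]

lemma DD_comp (a a' : I → k) (c c' : k) (x : RR k I J) :
    DD a c (DD a' c' x) = DD (a * a') (c * c') x := by
  have : (DD a c).comp (DD a' c') = DD (J := J) (a * a') (c * c') := by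
    apply rhom_ext
    rintro (i | j)
    · change DD a c (DD a' c' (tt k i)) = DD (a * a') (c * c') (tt k i)
      rw [DD_tt, map_smul, DD_tt, DD_tt, smul_smul, Pi.mul_apply, mul_comm]
    · change DD a c (DD a' c' (ss k j)) = DD (a * a') (c * c') (ss k j)
      rw [DD_ss, map_smul, DD_ss, DD_ss, smul_smul, mul_comm]
  exact DFunLike.congr_fun this x

lemma DD_one (x : RR k I J) : DD (1 : I → k) 1 x = x := by
  have : DD (1 : I → k) 1 = AlgHom.id k (RR k I J) := by
    apply rhom_ext
    rintro (i | j)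
    · change DD 1 1 (tt k i) = tt k i
      rw [DD_tt, Pi.one_apply, one_smul]
    · change DD 1 1 (ss k j) = ss k j
      rw [DD_ss, one_smul]
  rw [this]; rfl

lemma DD_TT (a : I → k) (c : k) (ha : ∀ i, a i ≠ 0) (b : I → J → k) (x : RR k I J) :
    DD a c (TT b x) = TT (fun i => (c / a i) • b i) (DD a c x) := by
  have : (DD a c).comp (TT b) = (TT (fun i => (c / a i) • b i)).comp (DD (J := J) a c) := by
    apply rhom_ext
    rintro (i | j)
    · change DD a c (TT b (tt k i)) = TT (fun i => (c / a i) • b i) (DD a c (tt k i))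
      rw [TT_tt, DD_tt, map_add, DD_tt, DD_LL, map_smul, TT_tt, smul_add, ← LL_smul, smul_smul,
        mul_div_cancel₀ _ (ha i)]
    · change DD a c (TT b (ss k j)) = TT (fun i => (c / a i) • b i) (DD a c (ss k j))
      rw [TT_ss, DD_ss, map_smul, TT_ss]
  exact DFunLike.congr_fun this x

/-- Fixed points on the module: if `ζ • δ m = m` where `δ` scales only `t_{i0}` (by `ζ`),
then `m = 0`. -/
lemma fixed_module [DecidableEq I] {ζ : k} (h1 : ζ ≠ 1) (h2 : ζ ^ 2 ≠ 1) (i0 : I)
    (m : RR k I J)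
    (hm : ζ • DD (Function.update 1 i0 ζ) 1 m = m) : m = 0 := by
  set δ : RR k I J →ₐ[k] RR k I J := DD (Function.update 1 i0 ζ) 1 with hδ
  have key : ∀ m : RR k I J, ∃ x y, δ x = x ∧ δ y = y ∧ m = x + y * tt k i0 := by
    intro m
    refine rg_induction (P := fun m => ∃ x y, δ x = x ∧ δ y = y ∧ m = x + y * tt k i0)
      ?_ ?_ ?_ m
    · intro c
      exact ⟨algebraMap k _ c, 0, δ.commutes c, map_zero δ, by simp⟩
    · rintro a b ⟨x, y, hx, hy, rfl⟩ ⟨x', y', hx', hy', rfl⟩
      exact ⟨x + x', y + y', by rw [map_add, hx, hx'], by rw [map_add, hy, hy'], by ring⟩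
    · rintro a (i | j) ⟨x, y, hx, hy, rfl⟩
      · by_cases hi : i = i0
        · subst hi
          refine ⟨0, x, map_zero δ, hx, ?_⟩
          change (x + y * tt k i) * tt k i = _
          have := tt_sq k (J := J) i
          linear_combination y * this
        · refine ⟨x * tt k i, y * tt k i, ?_, ?_, ?_⟩
          · rw [map_mul, hx, hδ, DD_tt, Function.update_of_ne hi, Pi.one_apply, one_smul]
          · rw [map_mul, hy, hδ, DD_tt, Function.update_of_ne hi, Pi.one_apply, one_smul]
          · change (x + y * tt k i0) * tt k i = _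
            ring
      · refine ⟨x * ss k j, y * ss k j, ?_, ?_, ?_⟩
        · rw [map_mul, hx, hδ, DD_ss, one_smul]
        · rw [map_mul, hy, hδ, DD_ss, one_smul]
        · change (x + y * tt k i0) * ss k j = _
          ring
  obtain ⟨x, y, hx, hy, rfl⟩ := key m
  have hδt : δ (tt k i0) = ζ • tt k i0 := by
    rw [hδ, DD_tt, Function.update_self]
  have e1 : ζ • (x + ζ • (y * tt k i0)) = x + y * tt k i0 := by
    rw [map_add, map_mul, hx, hy, hδt, mul_smul_comm] at hm
    exact hm
  have e2 : ζ • (x + ζ • (ζ • (y * tt k i0))) = x + ζ • (y * tt k i0) := by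
    have := congrArg δ e1
    rw [map_smul, map_add, map_add, map_smul, map_mul, hx, hy, hδt, mul_smul_comm] at this
    exact this
  -- subtract
  have e3 : ((ζ ^ 2 - 1) * (ζ - 1)) • (y * tt k i0) = 0 := by
    have : ((ζ ^ 2 - 1) * (ζ - 1)) • (y * tt k i0) =
      (ζ • (x + ζ • (ζ • (y * tt k i0))) - (x + ζ • (y * tt k i0))) -
      (ζ • (x + ζ • (y * tt k i0)) - (x + y * tt k i0)) := by
      module
    rw [this, e1, e2]; simp
  have e4 : y * tt k i0 = 0 := by
    rcases smul_eq_zero.1 e3 with h | h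
    · rcases mul_eq_zero.1 h with h | h
      · exact absurd (sub_eq_zero.1 h) h2
      · exact absurd (sub_eq_zero.1 h) h1
    · exact h
  rw [e4] at e1 ⊢
  have e5 : (ζ - 1) • x = 0 := by
    have : (ζ - 1) • x = ζ • (x + ζ • (0 : RR k I J)) - (x + 0) := by module
    rw [this, e1]; simp
  rcases smul_eq_zero.1 e5 with h | h
  · exact absurd (sub_eq_zero.1 h) h1
  · rw [h, add_zero]

end

end Pool.H49.E56
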