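import Pool.Agent.Lib_helper49.E56.Units

set_option autoImplicit false
set_option linter.unusedSectionVars false

/-! The group `G = R ⋊ (F ⋊ B)` and the action of `V`. -/

namespace Pool.H49.E56

open scoped commutatorElement

noncomputable section

variable (k : Type) [Field k] [CharP k 2] (I J : Type) [Fintype J]

/-- underlying set of the group `R ⋊ (F ⋊ B)` -/
@[ext] structure GG : Type where
  m : RR k I J
  f : FF k I J
  b : I → J → k

variable {k I J}

/-- action of `T_b` on `F` -/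
def TF (b : I → J → k) : FF k I J →* FF k I J where
  toFun f := ⟨um (TT b) f.1, FF_TT f.2 b⟩
  map_one' := by ext; simp
  map_mul' f g := by ext; simp

/-- the underlying ring element of an element of `F` -/
def fv (f : FF k I J) : RR k I J := ((f : (RR k I J)ˣ) : RR k I J)

lemma fv_ext {f g : FF k I J} (h : fv f = fv g) : f = g := Subtype.ext (Units.ext h)
lemma fv_mul (f g : FF k I J) : fv (f * g) = fv f * fv g := rfl
lemma fv_one : fv (1 : FF k I J) = 1 := rfl
lemma fv_TF (b : I → J → k) (f : FF k I J) : fv (TF b f) = TT b (fv f) := rfl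
lemma fv_sq (f : FF k I J) : fv f * fv f = 1 := by
  have h := FF_sq f.2
  have h2 : fv f * fv f = (((f : (RR k I J)ˣ) ^ 2 : (RR k I J)ˣ) : RR k I J) := by
    rw [pow_two]; rfl
  rw [h2, h, Units.val_one]
lemma ff_mul_self (f : FF k I J) : f * f = 1 := fv_ext (fv_sq f)
lemma ff_inv (f : FF k I J) : f⁻¹ = f := inv_eq_of_mul_eq_one_left (ff_mul_self f)

lemma add_self_fun (b : I → J → k) : b + b = 0 := by
  ext i j; exact CharTwo.add_self_eq_zero _

lemma TF_comp (b c : I → J → k) (f : FF k I J) : TF b (TF c f) = TF (b + c) f :=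
  fv_ext (by rw [fv_TF, fv_TF, fv_TF, TT_comp])
lemma TF_zero (f : FF k I J) : TF 0 f = f := fv_ext (by rw [fv_TF, TT_zero])

instance : Mul (GG k I J) where
  mul x y := ⟨x.m + fv x.f * TT x.b y.m, x.f * TF x.b y.f, x.b + y.b⟩

instance : One (GG k I J) where
  one := ⟨0, 1, 0⟩

instance : Inv (GG k I J) where
  inv x := ⟨TT x.b (fv x.f * x.m), TF x.b x.f, x.b⟩

lemma mul_m (x y : GG k I J) : (x * y).m = x.m + fv x.f * TT x.b y.m := rfl
lemma mul_f (x y : GG k I J) : (x * y).f = x.f * TF x.b y.f := rfl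
lemma mul_b (x y : GG k I J) : (x * y).b = x.b + y.b := rfl
lemma one_m : (1 : GG k I J).m = 0 := rfl
lemma one_f : (1 : GG k I J).f = 1 := rfl
lemma one_b : (1 : GG k I J).b = 0 := rfl
lemma inv_m (x : GG k I J) : (x⁻¹).m = TT x.b (fv x.f * x.m) := rfl
lemma inv_f (x : GG k I J) : (x⁻¹).f = TF x.b x.f := rfl
lemma inv_b (x : GG k I J) : (x⁻¹).b = x.b := rfl

instance : Group (GG k I J) :=
  Group.ofLeftAxioms
    (by
      intro x y z
      ext1
      · rw [mul_m, mul_m, mul_m, mul_m, mul_f, mul_b, fv_mul, fv_TF, map_add, map_mul, TT_comp]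
        ring
      · rw [mul_f, mul_f, mul_f, mul_f, mul_b, map_mul, TF_comp, mul_assoc]
      · rw [mul_b, mul_b, mul_b, mul_b, add_assoc])
    (by
      intro x
      ext1
      · rw [mul_m, one_m, one_f, one_b, fv_one, TT_zero]; ring
      · rw [mul_f, one_f, one_b, TF_zero, one_mul]
      · rw [mul_b, one_b, zero_add])
    (by
      intro x
      ext1
      · rw [mul_m, inv_m, inv_f, inv_b, one_m, fv_TF, map_mul, CharTwo.add_self_eq_zero]
      · rw [mul_f, inv_f, inv_b, one_f, ← map_mul, ff_mul_self, map_one]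
      · rw [mul_b, inv_b, one_b, add_self_fun])

instance [Finite k] [Finite I] : Finite (GG k I J) := by
  have : Function.Injective (fun g : GG k I J => (g.m, g.f, g.b)) := by
    intro x y h
    simp only [Prod.mk.injEq] at h
    exact GG.ext h.1 h.2.1 h.2.2
  exact Finite.of_injective _ this

/-- special elements -/
def gm (x : RR k I J) : GG k I J := ⟨x, 1, 0⟩
def gf (f : FF k I J) : GG k I J := ⟨0, f, 0⟩
def gb (b : I → J → k) : GG k I J := ⟨0, 1, b⟩

lemma gm_ne_one {x : RR k I J} (hx : x ≠ 0) : gm x ≠ 1 := by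
  intro h
  exact hx (congrArg GG.m h)

lemma gm_zero : gm (0 : RR k I J) = 1 := rfl
lemma gm_mul (x y : RR k I J) : gm x * gm y = gm (x + y) := by
  ext1
  · rw [mul_m]; simp only [gm]; rw [fv_one, TT_zero, one_mul]
  · rw [mul_f]; simp only [gm]; rw [TF_zero, one_mul]
  · rw [mul_b]; simp only [gm]; rw [add_zero]

lemma gf_mul (f g : FF k I J) : gf f * gf g = gf (f * g) := by
  ext1
  · rw [mul_m]; simp only [gf]; rw [map_zero, mul_zero, add_zero]
  · rw [mul_f]; simp only [gf]; rw [TF_zero]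
  · rw [mul_b]; simp only [gf]; rw [add_zero]

lemma gf_one : gf (1 : FF k I J) = 1 := rfl

lemma gm_inv (x : RR k I J) : (gm x)⁻¹ = gm x := by
  rw [inv_eq_iff_mul_eq_one, gm_mul, CharTwo.add_self_eq_zero, gm_zero]

lemma gf_inv (f : FF k I J) : (gf f)⁻¹ = gf f := by
  rw [inv_eq_iff_mul_eq_one, gf_mul, ff_mul_self, gf_one]

lemma gb_mul (b c : I → J → k) : gb b * gb c = gb (b + c) := by
  ext1
  · rw [mul_m]; simp only [gb]; rw [map_zero, mul_zero, add_zero]
  · rw [mul_f]; simp only [gb]; rw [map_one, one_mul]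
  · rw [mul_b]; simp only [gb]

lemma gb_zero : gb (0 : I → J → k) = 1 := rfl

lemma gb_inv (b : I → J → k) : (gb b)⁻¹ = gb b := by
  rw [inv_eq_iff_mul_eq_one, gb_mul, add_self_fun, gb_zero]

/-- `[gf f, gm x] = gm ((f - 1) x)` -/
lemma comm_gf_gm (f : FF k I J) (x : RR k I J) :
    ⁅gf f, gm x⁆ = gm ((fv f + 1) * x) := by
  rw [commutatorElement_def, gf_inv, gm_inv]
  have h : gf f * gm x = gm (fv f * x) * gf f := by
    ext1
    · rw [mul_m, mul_m]; simp only [gf, gm]; rw [TT_zero, TT_zero, mul_zero, zero_add, add_zero]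
    · rw [mul_f, mul_f]; simp only [gf, gm]; rw [map_one, mul_one, TF_zero, one_mul]
    · rw [mul_b, mul_b]; simp only [gf, gm]
  rw [h, mul_assoc (gm _), gf_mul, ff_mul_self, gf_one, mul_one, gm_mul]
  congr 1; ring

/-- `[gf f, gb b] = gf (f * T_b f)` -/
lemma comm_gf_gb (f : FF k I J) (b : I → J → k) :
    ⁅gf f, gb b⁆ = gf (f * TF b f) := by
  rw [commutatorElement_def, gf_inv, gb_inv]
  have h : gb b * gf f = gf (TF b f) * gb b := by
    ext1
    · rw [mul_m, mul_m]; simp only [gf, gb]; rw [map_zero, map_zero, mul_zero, mul_zero]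
    · rw [mul_f, mul_f]; simp only [gf, gb]; rw [map_one, mul_one, one_mul]
    · rw [mul_b, mul_b]; simp only [gf, gb]; rw [zero_add, add_zero]
  rw [mul_assoc (gf f), h, ← mul_assoc, gf_mul, mul_assoc, gb_mul, add_self_fun, gb_zero, mul_one]

/-! ### exponent 8 -/

lemma pow_eight (g : GG k I J) : g ^ 8 = 1 := by
  have h1 : (g * g).b = 0 := by rw [mul_b, add_self_fun]
  have key : ∀ x : GG k I J, x.b = 0 → (x * x).b = 0 ∧ (x * x).f = 1 := by
    intro x hx
    refine ⟨by rw [mul_b, hx, add_zero], ?_⟩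
    rw [mul_f, hx, TF_zero, ff_mul_self]
  obtain ⟨h2, h3⟩ := key _ h1
  have h4 : (g * g * (g * g)) * (g * g * (g * g)) = 1 := by
    have : g * g * (g * g) = gm (g * g * (g * g)).m := by
      ext1
      · rfl
      · exact h3
      · exact h2
    rw [this, gm_mul, CharTwo.add_self_eq_zero, gm_zero]
  calc g ^ 8 = (g * g * (g * g)) * (g * g * (g * g)) := by simp only [pow_succ, pow_zero, one_mul, mul_assoc]
    _ = 1 := h4

lemma isPGroup : IsPGroup 2 (GG k I J) := fun g => ⟨3, pow_eight g⟩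

/-! ### derived series -/

def A0 : Subgroup (GG k I J) where
  carrier := {g | g.b = 0}
  mul_mem' {x y} hx hy := by
    simp only [Set.mem_ofPred_eq] at *; rw [mul_b, hx, hy, add_zero]
  one_mem' := rfl
  inv_mem' {x} hx := by simp only [Set.mem_ofPred_eq] at *; rw [inv_b, hx]

def A1 : Subgroup (GG k I J) where
  carrier := {g | g.b = 0 ∧ g.f = 1}
  mul_mem' {x y} hx hy := by
    simp only [Set.mem_ofPred_eq] at *
    refine ⟨by rw [mul_b, hx.1, hy.1, add_zero], by rw [mul_f, hx.2, hy.2, map_one, one_mul]⟩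
  one_mem' := ⟨rfl, rfl⟩
  inv_mem' {x} hx := by
    simp only [Set.mem_ofPred_eq] at *
    exact ⟨by rw [inv_b, hx.1], by rw [inv_f, hx.2, map_one]⟩

lemma comm_eq (g h : GG k I J) : ⁅g, h⁆ * (h * g) = g * h := by
  rw [commutatorElement_def]; group

lemma ds1 : derivedSeries (GG k I J) 1 ≤ A0 := by
  rw [derivedSeries_succ, derivedSeries_zero, Subgroup.commutator_le]
  intro g _ h _
  have e := congrArg GG.b (comm_eq g h)
  rw [mul_b, mul_b, mul_b, add_comm h.b g.b] at e
  exact add_eq_right.1 e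

lemma ds2 : derivedSeries (GG k I J) 2 ≤ A1 := by
  rw [derivedSeries_succ, Subgroup.commutator_le]
  intro g hg h hh
  have hg0 : g.b = 0 := ds1 hg
  have hh0 : h.b = 0 := ds1 hh
  have hc0 : (⁅g, h⁆).b = 0 := by
    have e := congrArg GG.b (comm_eq g h)
    rw [mul_b, mul_b, mul_b, add_comm h.b g.b] at e
    exact add_eq_right.1 e
  refine ⟨hc0, ?_⟩
  have e := congrArg GG.f (comm_eq g h)
  rw [mul_f, mul_f, mul_f, hc0, hg0, hh0, TF_zero, TF_zero, TF_zero] at e
  have e2 : fv (⁅g, h⁆).f * (fv h.f * fv g.f) = fv g.f * fv h.f := by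
    rw [← fv_mul, ← fv_mul, ← fv_mul, e]
  apply fv_ext
  rw [fv_one]
  have h1 := fv_sq g.f
  have h2 := fv_sq h.f
  calc fv (⁅g, h⁆).f = fv (⁅g, h⁆).f * (fv h.f * fv g.f) * (fv h.f * fv g.f) := by
        linear_combination (-fv (⁅g, h⁆).f) * h1 * (fv h.f * fv h.f) - fv (⁅g, h⁆).f * h2
    _ = 1 := by rw [e2]; linear_combination h1 * (fv h.f * fv h.f) + h2

lemma ds3 : derivedSeries (GG k I J) 3 = ⊥ := by
  rw [eq_bot_iff, derivedSeries_succ, Subgroup.commutator_le]
  intro g hg h hh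
  obtain ⟨hg0, hg1⟩ := ds2 hg
  obtain ⟨hh0, hh1⟩ := ds2 hh
  have eg : g = gm g.m := GG.ext rfl hg1 hg0
  have eh : h = gm h.m := GG.ext rfl hh1 hh0
  rw [Subgroup.mem_bot, commutatorElement_eq_one_iff_mul_comm, eg, eh, gm_mul, gm_mul, add_comm]

end

end Pool.H49.E56
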