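import Mathlib

set_option autoImplicit false

/-! The ring `Rg k ι = k[x_i : i ∈ ι]/(x_i^2)` over a field `k` of characteristic two. -/

namespace Pool.H49.E56

open MvPolynomial

noncomputable section

variable (k : Type) [Field k] (ι : Type)

def sqI : Ideal (MvPolynomial ι k) :=
  Ideal.span ((fun s => monomial s (1 : k)) '' (Set.range fun i : ι => Finsupp.single i 2))

def Rg : Type := MvPolynomial ι k ⧸ sqI k ι

instance : CommRing (Rg k ι) := inferInstanceAs (CommRing (MvPolynomial ι k ⧸ sqI k ι))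
instance : Algebra k (Rg k ι) := inferInstanceAs (Algebra k (MvPolynomial ι k ⧸ sqI k ι))

def mkR : MvPolynomial ι k →ₐ[k] Rg k ι := Ideal.Quotient.mkₐ k (sqI k ι)

def gx (i : ι) : Rg k ι := mkR k ι (X i)

lemma mkR_surj : Function.Surjective (mkR k ι) := Ideal.Quotient.mkₐ_surjective k (sqI k ι)

lemma mkR_eq_zero (f : MvPolynomial ι k) : mkR k ι f = 0 ↔ f ∈ sqI k ι :=
  Ideal.Quotient.eq_zero_iff_mem

variable {k ι}

lemma gx_sq (i : ι) : gx k ι i ^ 2 = 0 := by
  unfold gx
  rw [← map_pow, mkR_eq_zero]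
  apply Ideal.subset_span
  refine ⟨Finsupp.single i 2, ⟨i, rfl⟩, ?_⟩
  simp [X_pow_eq_monomial]

/-- the universal property -/
def rlift {A : Type} [CommRing A] [Algebra k A] (y : ι → A) (hy : ∀ i, y i ^ 2 = 0) :
    Rg k ι →ₐ[k] A :=
  Ideal.Quotient.liftₐ (sqI k ι) (aeval y) (by
    intro a ha
    have : sqI k ι ≤ RingHom.ker (aeval (R := k) y) := by
      unfold sqI
      rw [Ideal.span_le]
      rintro _ ⟨_, ⟨i, rfl⟩, rfl⟩
      simp [RingHom.mem_ker, aeval_monomial, hy]
    exact this ha)

lemma rlift_gx {A : Type} [CommRing A] [Algebra k A] (y : ι → A) (hy : ∀ i, y i ^ 2 = 0) (i : ι) :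
    rlift (k := k) y hy (gx k ι i) = y i := by
  have : rlift (k := k) y hy (mkR k ι (X i)) = aeval (R := k) y (X i) := rfl
  unfold gx
  rw [this, aeval_X]

lemma rhom_ext {A : Type} [CommRing A] [Algebra k A] {f g : Rg k ι →ₐ[k] A}
    (h : ∀ i, f (gx k ι i) = g (gx k ι i)) : f = g := by
  have h2 : f.comp (mkR k ι) = g.comp (mkR k ι) := by
    apply MvPolynomial.algHom_ext
    intro i
    exact h i
  apply AlgHom.ext
  intro x
  obtain ⟨y, rfl⟩ := mkR_surj k ι x
  exact DFunLike.congr_fun h2 y

lemma rg_induction {P : Rg k ι → Prop} (hC : ∀ c : k, P (algebraMap k _ c))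
    (hadd : ∀ a b, P a → P b → P (a + b)) (hmul : ∀ a i, P a → P (a * gx k ι i))
    (a : Rg k ι) : P a := by
  obtain ⟨f, rfl⟩ := mkR_surj k ι a
  induction f using MvPolynomial.induction_on with
  | C c =>
    have : mkR k ι (C c) = algebraMap k _ c := (mkR k ι).commutes c
    rw [this]; exact hC c
  | add p q hp hq => rw [map_add]; exact hadd _ _ hp hq
  | mul_X p i hp => rw [map_mul]; exact hmul _ _ hp

lemma prod_gx_ne_zero (s : Finset ι) : ∏ i ∈ s, gx k ι i ≠ 0 := by
  classical
  unfold gx
  rw [← map_prod, ne_eq, mkR_eq_zero]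
  unfold sqI
  rw [mem_ideal_span_monomial_image]
  intro h
  have h1 : (∏ i ∈ s, (X i : MvPolynomial ι k)) = monomial (∑ i ∈ s, Finsupp.single i 1) 1 := by
    rw [monomial_sum_one]
    rfl
  rw [h1] at h
  have h2 := h (∑ i ∈ s, Finsupp.single i 1) (by simp)
  obtain ⟨_, ⟨i, rfl⟩, h3⟩ := h2
  have h4 := h3 i
  simp only [Finsupp.single_eq_same, Finsupp.coe_finsetSum, Finset.sum_apply] at h4
  have h5 : ∑ c ∈ s, (Finsupp.single c 1 : ι →₀ ℕ) i ≤ 1 := by
    simp only [Finsupp.single_apply]
    rw [Finset.sum_ite_eq']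
    split_ifs <;> omega
  omega

instance : Nontrivial (Rg k ι) := ⟨⟨1, 0, by
  have := prod_gx_ne_zero (k := k) (ι := ι) ∅
  simpa using this⟩⟩

lemma span_top : Submodule.span k (Set.range fun s : Finset ι => ∏ i ∈ s, gx k ι i) = ⊤ := by
  classical
  rw [eq_top_iff]
  rintro a -
  refine rg_induction (P := fun a => a ∈ Submodule.span k
    (Set.range fun s : Finset ι => ∏ i ∈ s, gx k ι i)) ?_ ?_ ?_ a
  · intro c
    rw [Algebra.algebraMap_eq_smul_one]
    exact Submodule.smul_mem _ _ (Submodule.subset_span ⟨∅, by simp⟩)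
  · intro a b ha hb
    exact Submodule.add_mem _ ha hb
  · intro a i ha
    induction ha using Submodule.span_induction with
    | mem x hx =>
      obtain ⟨s, rfl⟩ := hx
      by_cases his : i ∈ s
      · have : (∏ j ∈ s, gx k ι j) * gx k ι i = 0 := by
          rw [← Finset.mul_prod_erase s _ his, mul_right_comm, ← pow_two, gx_sq, zero_mul]
        simp only [this]
        exact Submodule.zero_mem _
      · apply Submodule.subset_span
        refine ⟨insert i s, ?_⟩
        simp only
        rw [Finset.prod_insert his, mul_comm]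
    | zero => rw [zero_mul]; exact Submodule.zero_mem _
    | add x y _ _ hx hy => rw [add_mul]; exact Submodule.add_mem _ hx hy
    | smul c x _ hx => rw [smul_mul_assoc]; exact Submodule.smul_mem _ _ hx

instance [Finite k] [Finite ι] : Finite (Rg k ι) := by
  have : Fintype ι := Fintype.ofFinite ι
  classical
  have : Module.Finite k (Rg k ι) := by
    refine ⟨?_⟩
    rw [← span_top]
    exact Submodule.fg_span (Set.finite_range _)
  exact Module.finite_of_finite k

instance [CharP k 2] : CharP (Rg k ι) 2 :=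
  charP_of_injective_algebraMap (FaithfulSMul.algebraMap_injective k (Rg k ι)) 2

end

end Pool.H49.E56
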