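import Pool.Agent.Lib_helper49.E56.Auts

set_option autoImplicit false
set_option linter.unusedSectionVars false

/-! The group `F` of units generated by `1 + c t_i + β`, `β` a linear form in the `s_j`. -/

namespace Pool.H49.E56

noncomputable section

variable {k : Type} [Field k] [CharP k 2] {I J : Type} [Fintype J]

/-- action of an algebra endomorphism on units -/
def um (φ : RR k I J →ₐ[k] RR k I J) : (RR k I J)ˣ →* (RR k I J)ˣ :=
  Units.map (φ : RR k I J →* RR k I J)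

lemma um_val (φ : RR k I J →ₐ[k] RR k I J) (u : (RR k I J)ˣ) :
    ((um φ u : (RR k I J)ˣ) : RR k I J) = φ u := rfl

/-- the unit `1 + z` for `z ^ 2 = 0` -/
def uz (z : RR k I J) (hz : z ^ 2 = 0) : (RR k I J)ˣ where
  val := 1 + z
  inv := 1 + z
  val_inv := by
    have h2 : (z + z) = 0 := CharTwo.add_self_eq_zero z
    linear_combination h2 + hz
  inv_val := by
    have h2 : (z + z) = 0 := CharTwo.add_self_eq_zero z
    linear_combination h2 + hz

lemma uz_val (z : RR k I J) (hz : z ^ 2 = 0) : ((uz z hz : (RR k I J)ˣ) : RR k I J) = 1 + z := rfl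

variable (k I J)

def GenF : Set (RR k I J)ˣ :=
  {u | ∃ (i : I) (c : k) (b : J → k), (u : RR k I J) = 1 + c • tt k i + LL b}

def FF : Subgroup (RR k I J)ˣ := Subgroup.closure (GenF k I J)

variable {k I J}

lemma gen_sq (i : I) (c : k) (b : J → k) : (c • tt k i + LL b) ^ 2 = (0 : RR k I J) := by
  rw [CharTwo.add_sq, smul_pow, tt_sq, LL_sq, smul_zero, add_zero]

lemma FF_of_gen {u : (RR k I J)ˣ} (i : I) (c : k) (b : J → k)
    (h : (u : RR k I J) = 1 + c • tt k i + LL b) : u ∈ FF k I J :=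
  Subgroup.subset_closure ⟨i, c, b, h⟩

lemma FF_TT {u : (RR k I J)ˣ} (hu : u ∈ FF k I J) (b : I → J → k) : um (TT b) u ∈ FF k I J := by
  have : FF k I J ≤ (FF k I J).comap (um (TT b)) := by
    unfold FF
    rw [Subgroup.closure_le]
    rintro u ⟨i, c, b', hu⟩
    apply Subgroup.subset_closure
    refine ⟨i, c, b' + c • b i, ?_⟩
    rw [um_val, hu, map_add, map_add, map_one, map_smul, TT_tt, TT_LL, LL_add, LL_smul, smul_add]
    ring
  exact this hu

lemma FF_DD {u : (RR k I J)ˣ} (hu : u ∈ FF k I J) (a : I → k) (c : k) :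
    um (DD a c) u ∈ FF k I J := by
  have : FF k I J ≤ (FF k I J).comap (um (DD a c)) := by
    unfold FF
    rw [Subgroup.closure_le]
    rintro u ⟨i, c', b', hu⟩
    apply Subgroup.subset_closure
    refine ⟨i, c' * a i, c • b', ?_⟩
    rw [um_val, hu, map_add, map_add, map_one, map_smul, DD_tt, DD_LL, smul_smul]
  exact this hu

lemma FF_sq {u : (RR k I J)ˣ} (hu : u ∈ FF k I J) : u ^ 2 = 1 := by
  have : FF k I J ≤ (powMonoidHom 2 : (RR k I J)ˣ →* (RR k I J)ˣ).ker := by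
    unfold FF
    rw [Subgroup.closure_le]
    rintro u ⟨i, c, b, hu⟩
    simp only [SetLike.mem_coe, MonoidHom.mem_ker, powMonoidHom_apply]
    ext
    rw [Units.val_pow_eq_pow_val, hu, add_assoc, CharTwo.add_sq, gen_sq]
    simp
  exact this hu

lemma prod_one_add {z : RR k I J} (hz : z ^ 2 = 0) (s : Finset ℕ) (a : ℕ → k) :
    ∏ i ∈ s, (1 + a i • z) = 1 + (∑ i ∈ s, a i) • z := by
  classical
  induction s using Finset.induction_on with
  | empty => simp
  | insert j s hj ih =>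
    rw [Finset.prod_insert hj, ih, Finset.sum_insert hj]
    have h2 : (a j • z) * ((∑ i ∈ s, a i) • z) = 0 := by
      rw [smul_mul_smul_comm, ← pow_two, hz, smul_zero]
    rw [add_smul]
    linear_combination h2

/-- norm over the powers of the automorphism `δ : t_i ↦ ζ t_i, s_j ↦ ζ s_j` -/
def Nm (ζ : k) (p : ℕ) : (RR k I J)ˣ →* (RR k I J)ˣ :=
  ∏ i ∈ Finset.range p, um (DD (fun _ => ζ ^ i) (ζ ^ i))

lemma Nm_val (ζ : k) (p : ℕ) (u : (RR k I J)ˣ) :
    ((Nm ζ p u : (RR k I J)ˣ) : RR k I J) =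
      ∏ i ∈ Finset.range p, DD (fun _ => ζ ^ i) (ζ ^ i) (u : RR k I J) := by
  unfold Nm
  rw [MonoidHom.finsetProd_apply, Units.coe_prod]
  rfl

lemma Nm_gen {ζ : k} {p : ℕ} (hζ : IsPrimitiveRoot ζ p) (hp : p.Prime) (hp2 : p ≠ 2)
    (i : I) (c : k) (b : J → k) :
    ∏ l ∈ Finset.range p, DD (fun _ => ζ ^ l) (ζ ^ l) (1 + c • tt k i + LL b : RR k I J) = 1 := by
  have hs1 : ∑ l ∈ Finset.range p, ζ ^ l = 0 := hζ.geom_sum_eq_zero hp.one_lt
  have hζ2 : IsPrimitiveRoot (ζ ^ 2) p :=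
    hζ.pow_of_coprime 2 ((Nat.coprime_primes Nat.prime_two hp).2 (Ne.symm hp2))
  have hs2 : ∑ l ∈ Finset.range p, (ζ ^ 2) ^ l = 0 := hζ2.geom_sum_eq_zero hp.one_lt
  have h1 : (c • tt k i : RR k I J) ^ 2 = 0 := by rw [smul_pow, tt_sq, smul_zero]
  have h2 : (LL b : RR k I J) ^ 2 = 0 := LL_sq b
  have h3 : (c • tt k i * LL b : RR k I J) ^ 2 = 0 := by rw [mul_pow, h1, zero_mul]
  have hfac : ∀ l, DD (fun _ => ζ ^ l) (ζ ^ l) (1 + c • tt k i + LL b : RR k I J) =
      (1 + (ζ ^ l) • (c • tt k i)) * (1 + (ζ ^ l) • LL b) *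
        (1 + (ζ ^ 2) ^ l • (c • tt k i * LL b)) := by
    intro l
    rw [map_add, map_add, map_one, map_smul, DD_tt, DD_LL, LL_smul]
    have e1 : (ζ ^ l) • (c • tt k i : RR k I J) * ((ζ ^ l) • LL b) =
        (ζ ^ 2) ^ l • (c • tt k i * LL b) := by
      rw [smul_mul_smul_comm, ← pow_mul, mul_comm 2 l, pow_mul, sq (ζ ^ l)]
    have e0 : c • (ζ ^ l) • (tt k i : RR k I J) = (ζ ^ l) • (c • tt k i) := smul_comm _ _ _
    rw [e0, ← e1]
    set A := (ζ ^ l) • (c • tt k i : RR k I J) with hA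
    set B := (ζ ^ l) • (LL b : RR k I J) with hB
    have hA2 : A ^ 2 = 0 := by rw [hA, smul_pow, h1, smul_zero]
    have hB2 : B ^ 2 = 0 := by rw [hB, smul_pow, h2, smul_zero]
    have hAB : A * B + A * B = 0 := CharTwo.add_self_eq_zero _
    linear_combination (-1) * hAB - (B + B ^ 2) * hA2 - A * hB2
  rw [Finset.prod_congr rfl fun l _ => hfac l, Finset.prod_mul_distrib, Finset.prod_mul_distrib,
    prod_one_add h1, prod_one_add h2, prod_one_add h3, hs1, hs2]
  simp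

lemma FF_Nm {ζ : k} {p : ℕ} (hζ : IsPrimitiveRoot ζ p) (hp : p.Prime) (hp2 : p ≠ 2)
    {u : (RR k I J)ˣ} (hu : u ∈ FF k I J) : Nm ζ p u = 1 := by
  have : FF k I J ≤ (Nm ζ p).ker := by
    unfold FF
    rw [Subgroup.closure_le]
    rintro u ⟨i, c, b, hu⟩
    simp only [SetLike.mem_coe, MonoidHom.mem_ker]
    ext
    rw [Nm_val, hu, Nm_gen hζ hp hp2, Units.val_one]
  exact this hu

lemma FF_fixed {ζ : k} {p : ℕ} (hζ : IsPrimitiveRoot ζ p) (hp : p.Prime) (hp2 : p ≠ 2)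
    {u : (RR k I J)ˣ} (hu : u ∈ FF k I J)
    (hfix : DD (fun _ => ζ) ζ (u : RR k I J) = u) : u = 1 := by
  have h1 : ∀ l : ℕ, DD (fun _ => ζ ^ l) (ζ ^ l) (u : RR k I J) = u := by
    intro l
    induction l with
    | zero =>
      have := DD_one (k := k) (u : RR k I J)
      simp only [pow_zero]
      exact this
    | succ l ih =>
      have := DD_comp (k := k) (fun _ : I => ζ ^ l) (fun _ => ζ) (ζ ^ l) ζ (u : RR k I J)
      rw [hfix, ih] at this
      simp only [pow_succ]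
      exact this.symm
  have h2 : Nm ζ p u = u ^ p := by
    ext
    rw [Nm_val, Finset.prod_congr rfl fun l _ => h1 l]
    simp
  rw [FF_Nm hζ hp hp2 hu] at h2
  have h3 := FF_sq hu
  have hodd : Odd p := hp.odd_of_ne_two hp2
  obtain ⟨r, hr⟩ := hodd
  rw [hr, pow_succ, pow_mul, h3, one_pow, one_mul] at h2
  exact h2.symm

end

end Pool.H49.E56
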